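import Pool.Agent.H30.Pog5E

/-! Stable freeness is not determined by the intersection lattice. -/

namespace Pool.Agent.Results.MP_48904d_ag.NotCombinatorial
open MvPolynomial CategoryTheory

variable {n d : ℕ}

/-- The equations of `d` distinct hyperplanes of `ℙⁿ`: nonzero, pairwise non-proportional. -/
def IsArr (a : Fin d → Fin (n + 1) → ℂ) : Prop :=
  (∀ i, a i ≠ 0) ∧ ∀ i j, i ≠ j → ∀ c : ℂ, a i ≠ c • a j

/-- The linear form with coefficient vector `a`. -/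
noncomputable def linForm (a : Fin (n + 1) → ℂ) : MvPolynomial (Fin (n + 1)) ℂ :=
  ∑ j, C (a j) * X j

/-- The intersection lattice: all intersections of subfamilies of the linear hyperplanes. -/
def interLattice (a : Fin d → Fin (n + 1) → ℂ) : Set (Submodule ℂ (Fin (n + 1) → ℂ)) :=
  {Y | ∃ T : Set (Fin d), ∀ v, v ∈ Y ↔ ∀ i ∈ T, ∑ j, a i j * v j = 0}

/-- The module `D₀(A)`: logarithmic derivations that kill `Q`. -/
def logDer0 (a : Fin d → Fin (n + 1) → ℂ) : Submodule (MvPolynomial (Fin (n + 1)) ℂ)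
    (Derivation ℂ (MvPolynomial (Fin (n + 1)) ℂ) (MvPolynomial (Fin (n + 1)) ℂ)) where
  carrier := {θ | (∀ i, θ (linForm (a i)) ∈ Ideal.span {linForm (a i)}) ∧
    θ (∏ i, linForm (a i)) = 0}
  add_mem' h1 h2 := ⟨fun i => Ideal.add_mem _ (h1.1 i) (h2.1 i), by
    rw [Derivation.add_apply, h1.2, h2.2, add_zero]⟩
  zero_mem' := ⟨fun _ => Ideal.zero_mem _, rfl⟩
  smul_mem' c _ h := ⟨fun i => Ideal.mul_mem_left _ c (h.1 i), by
    rw [Derivation.smul_apply, h.2, smul_zero]⟩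

/-- Stable freeness: `H^i_*(T_A)`, which for `i ≥ 1` is the local cohomology module
`H^{i+1}_m(D₀(A))` at the irrelevant ideal `m = (x₀, …, xₙ)`, vanishes for `2 ≤ i ≤ n - 2`. -/
def StablyFree (a : Fin d → Fin (n + 1) → ℂ) : Prop :=
  ∀ i : ℕ, 2 ≤ i → i + 2 ≤ n → Limits.IsZero
    ((localCohomology (Ideal.span (Set.range (X : Fin (n + 1) → MvPolynomial (Fin (n + 1)) ℂ)))
      (i + 1)).obj (ModuleCat.of (MvPolynomial (Fin (n + 1)) ℂ) (logDer0 a)))

section aux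
open Pool.Agent.H30.Pog5

lemma lat_eq' (a : Fin 12 → Fin 5 → ℤ) :
    interLattice (n := 4) (fun i m => (a i m : ℂ)) = Pool.Agent.H30.Pog5.Lat ℂ a := by
  ext Y
  simp only [interLattice, Pool.Agent.H30.Pog5.Lat, Set.mem_ofPred_eq, Submodule.ext_iff,
    Submodule.mem_iInf, mem_hy, ap]

lemma lin_eq (a : Fin 5 → ℤ) : linForm (n := 4) (fun m => (a m : ℂ)) = ap a X := by
  simp [linForm, ap]

lemma mem_D (a : Fin 12 → Fin 5 → ℤ) (θ : Derivation ℂ (S ℂ) (S ℂ)) :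
    θ ∈ logDer0 (n := 4) (fun i m => (a i m : ℂ)) ↔
      (InD a fun j => θ (X j)) ∧ θ (∏ i, ap (a i) X) = 0 := by
  change (∀ i, _) ∧ _ ↔ _
  simp only [lin_eq, Ideal.mem_span_singleton, InD]
  exact and_congr (forall_congr' fun i => by rw [← der_ap θ (a i)]) Iff.rfl

end aux

theorem result : ∃ (n d : ℕ) (a b : Fin d → Fin (n + 1) → ℂ), IsArr a ∧ IsArr b ∧
    Nonempty ((interLattice a)ᵒᵈ ≃o (interLattice b)ᵒᵈ) ∧ StablyFree a ∧ ¬ StablyFree b := by
  open Pool.Agent.H30.Pog5 in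
  refine ⟨4, 12, fun i m => (aA i m : ℂ), fun i m => (aB i m : ℂ), arrA, arrB, ?_,
    fun i h1 h2 => ?_, fun h => nzB _ (mem_D aB) (h 2 le_rfl le_rfl)⟩
  · rw [lat_eq', lat_eq']
    exact Pool.Agent.H30.Pog5.lat_iso.map OrderIso.dual
  · obtain rfl : i = 2 := by omega
    exact Pool.Agent.H30.Pog5.zeroA _ (mem_D _)

end Pool.Agent.Results.MP_48904d_ag.NotCombinatorial
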